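import Mathlib
import Pool.Agent.H686R2.Kelley
import Pool.Agent.H686R2.Sigma

/-!
# Measures on ccc complete Boolean algebras from countably generated subalgebras

Let `B` be a ccc complete Boolean algebra all of whose countably generated complete subalgebras
admit measures. If `B` admits a continuous outer measure then `B` admits a measure.
-/

set_option autoImplicit false

open Set Filter Topology
open Pool.Agent.H686R2.Kelley Pool.Agent.H686R2.Sigma

universe u

namespace Pool.Agent.Results.MP_2d6919_lc.MeasureFromPieces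

/-- the countable chain condition: every family of pairwise disjoint nonzero elements is
countable -/
def CCC (B : Type u) [BooleanAlgebra B] : Prop :=
  ∀ S : Set B, (∀ a ∈ S, a ≠ ⊥) → S.Pairwise Disjoint → S.Countable

/-- `μ` is a measure on the Boolean algebra `A`: nonnegative, strictly positive and countably
additive on all sequences of pairwise disjoint elements whose supremum exists in `A` -/
structure IsMeasure {A : Type u} [BooleanAlgebra A] (μ : A → ℝ) : Prop where
  nonneg : ∀ a, 0 ≤ μ a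
  pos : ∀ a, a ≠ ⊥ → 0 < μ a
  sigma : ∀ (a : ℕ → A) (x : A), (Pairwise fun i j => Disjoint (a i) (a j)) →
    IsLUB (range a) x → HasSum (fun n => μ (a n)) (μ x)

/-- `m` is a continuous outer measure on `B` -/
structure IsContinuousOuterMeasure {B : Type u} [CompleteBooleanAlgebra B] (m : B → ℝ) : Prop where
  nonneg : ∀ a, 0 ≤ m a
  bot : m ⊥ = 0
  pos : ∀ a, a ≠ ⊥ → 0 < m a
  mono : ∀ a b, a ≤ b → m a ≤ m b
  subadd : ∀ a b, m (a ⊔ b) ≤ m a + m b
  cont : ∀ a : ℕ → B, Antitone a → (⨅ n, a n) = ⊥ → Tendsto (fun n => m (a n)) atTop (𝓝 0)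

/-- `L` is a complete subalgebra of `B`: closed under all suprema and infima taken in `B` -/
def IsCompleteSubalgebra {B : Type u} [CompleteBooleanAlgebra B] (L : BooleanSubalgebra B) : Prop :=
  ∀ s : Set B, s ⊆ L → sSup s ∈ L ∧ sInf s ∈ L

/-- `L` is a countably generated complete subalgebra: it is the smallest complete subalgebra of `B`
containing some countable subset of `B` -/
def IsCountablyGenerated {B : Type u} [CompleteBooleanAlgebra B] (L : BooleanSubalgebra B) : Prop :=
  IsCompleteSubalgebra L ∧ ∃ G : Set B, G.Countable ∧ G ⊆ L ∧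
    ∀ L' : BooleanSubalgebra B, IsCompleteSubalgebra L' → G ⊆ L' → L ≤ L'

section

variable {B : Type u} [CompleteBooleanAlgebra B]

/-- the complete subalgebra generated by `G` -/
def cgen (G : Set B) : BooleanSubalgebra B := sInf {L | IsCompleteSubalgebra L ∧ G ⊆ L}

theorem isCompleteSubalgebra_cgen (G : Set B) : IsCompleteSubalgebra (cgen G) := by
  intro s hs
  have h : ∀ L : BooleanSubalgebra B, IsCompleteSubalgebra L ∧ G ⊆ L → s ⊆ L := by
    intro L hL x hx
    have h1 := hs hx
    rw [SetLike.mem_coe, cgen, BooleanSubalgebra.mem_sInf] at h1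
    exact h1 L hL
  constructor
  · rw [cgen, BooleanSubalgebra.mem_sInf]
    exact fun L hL => (hL.1 s (h L hL)).1
  · rw [cgen, BooleanSubalgebra.mem_sInf]
    exact fun L hL => (hL.1 s (h L hL)).2

theorem subset_cgen (G : Set B) : G ⊆ cgen G := by
  intro g hg
  rw [SetLike.mem_coe, cgen, BooleanSubalgebra.mem_sInf]
  exact fun L hL => hL.2 hg

theorem isCountablyGenerated_cgen {G : Set B} (hG : G.Countable) : IsCountablyGenerated (cgen G) :=
  ⟨isCompleteSubalgebra_cgen G, G, hG, subset_cgen G, fun _ h1 h2 => sInf_le ⟨h1, h2⟩⟩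

theorem iSup_mem {L : BooleanSubalgebra B} (hL : IsCompleteSubalgebra L) {a : ℕ → B}
    (ha : ∀ n, a n ∈ L) : (⨆ n, a n) ∈ L :=
  (hL (range a) (by rintro _ ⟨n, rfl⟩; exact ha n)).1

theorem iInf_mem {L : BooleanSubalgebra B} (hL : IsCompleteSubalgebra L) {a : ℕ → B}
    (ha : ∀ n, a n ∈ L) : (⨅ n, a n) ∈ L :=
  (hL (range a) (by rintro _ ⟨n, rfl⟩; exact ha n)).2

/-- A measure on a complete subalgebra, as a function on `B`. -/
theorem exists_ext {L : BooleanSubalgebra B} (hL : IsCompleteSubalgebra L) {μ : L → ℝ}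
    (hμ : IsMeasure μ) : ∃ M : B → ℝ, (∀ b, 0 ≤ M b) ∧ (∀ b ∈ L, b ≠ ⊥ → 0 < M b) ∧
      ∀ a : ℕ → B, (∀ n, a n ∈ L) → (Pairwise fun i j => Disjoint (a i) (a j)) →
        HasSum (fun n => M (a n)) (M (⨆ n, a n)) := by
  classical
  let M : B → ℝ := fun b => if h : b ∈ L then μ ⟨b, h⟩ else 0
  have hMp : ∀ (b : B) (h : b ∈ L), M b = μ ⟨b, h⟩ := fun b h => dif_pos h
  refine ⟨M, fun b => ?_, fun b hb hne => ?_, fun a ha hd => ?_⟩
  · by_cases h : b ∈ L
    · rw [hMp b h]; exact hμ.nonneg _
    · exact (dif_neg h : M b = 0).ge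
  · rw [hMp b hb]
    exact hμ.pos _ fun h => hne (congrArg Subtype.val h)
  · have h1 : (⨆ n, a n) ∈ L := iSup_mem hL ha
    rw [hMp _ h1]
    have h2 := hμ.sigma (fun n => ⟨a n, ha n⟩) ⟨⨆ n, a n, h1⟩ (fun i j hij => by
      have h3 : Disjoint (a i) (a j) := hd hij
      show Disjoint (⟨a i, ha i⟩ : L) ⟨a j, ha j⟩
      rw [disjoint_iff] at h3 ⊢
      exact Subtype.ext h3) (by
      constructor
      · rintro _ ⟨n, rfl⟩
        exact le_iSup a n
      · intro x hx
        exact iSup_le fun n => hx ⟨n, rfl⟩)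
    convert h2 using 2 with n
    exact hMp _ (ha n)

/-- absolute continuity -/
theorem abs_cont {m : B → ℝ} (hm : IsContinuousOuterMeasure m) {L : BooleanSubalgebra B}
    (hL : IsCompleteSubalgebra L) {M : B → ℝ} (hM0 : ∀ b, 0 ≤ M b)
    (hMpos : ∀ b ∈ L, b ≠ ⊥ → 0 < M b)
    (hMs : ∀ a : ℕ → B, (∀ n, a n ∈ L) → (Pairwise fun i j => Disjoint (a i) (a j)) →
        HasSum (fun n => M (a n)) (M (⨆ n, a n)))
    (hadd : ∀ b ∈ L, ∀ c ∈ L, Disjoint b c → M (b ⊔ c) = M b + M c) {ε : ℝ} (hε : 0 < ε) :
    ∃ δ > 0, ∀ b ∈ L, ε ≤ m b → δ ≤ M b := by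
  by_contra hcon
  push Not at hcon
  choose! b hbL hbm hbM using fun n : ℕ => hcon ((1 / 2 : ℝ) ^ n) (by positivity)
  have hmono : ∀ x ∈ L, ∀ y ∈ L, x ≤ y → M x ≤ M y := by
    intro x hx y hy hxy
    have h1 : M y = M x + M (y \ x) := by
      rw [← hadd x hx (y \ x) (BooleanSubalgebra.sdiff_mem hy hx) disjoint_sdiff_self_right,
        sup_sdiff_cancel_right hxy]
    linarith [hM0 (y \ x)]
  let c : ℕ → B := fun n => ⨆ k, b (n + k)
  have hcL : ∀ n, c n ∈ L := fun n => iSup_mem hL fun k => hbL _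
  have hanti : Antitone c := by
    apply antitone_nat_of_succ_le
    intro n
    refine iSup_le fun k => ?_
    refine le_trans (le_of_eq ?_) (le_iSup (fun k => b (n + k)) (k + 1))
    show b (n + 1 + k) = b (n + (k + 1))
    congr 1
    ring
  have hcM : ∀ n, M (c n) ≤ 2 * (1 / 2 : ℝ) ^ n := by
    intro n
    have hdL : ∀ k, disjointed (fun k => b (n + k)) k ∈ L := by
      intro k
      rw [disjointed_apply]
      apply BooleanSubalgebra.sdiff_mem (hbL _)
      refine Finset.sup_induction (p := fun x => x ∈ L) (BooleanSubalgebra.bot_mem)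
        (fun x hx y hy => BooleanSubalgebra.sup_mem hx hy) (fun i _ => hbL _)
    have h1 := hMs _ hdL (disjoint_disjointed _)
    rw [iSup_disjointed] at h1
    have h2 : ∀ k, M (disjointed (fun k => b (n + k)) k) ≤ (1 / 2 : ℝ) ^ n * (1 / 2) ^ k := by
      intro k
      rw [← pow_add]
      exact (hmono _ (hdL k) _ (hbL _) (disjointed_le (fun k => b (n + k)) k)).trans (hbM _).le
    have h3 : HasSum (fun k : ℕ => (1 / 2 : ℝ) ^ n * (1 / 2) ^ k) ((1 / 2 : ℝ) ^ n * 2) :=
      (hasSum_geometric_two).mul_left _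
    have h4 := hasSum_le h2 h1 h3
    rw [mul_comm] at h4
    exact h4
  let d : B := ⨅ n, c n
  have hdL : d ∈ L := iInf_mem hL hcL
  have hd : d = ⊥ := by
    by_contra hne
    have h1 := hMpos d hdL hne
    have h2 : Tendsto (fun n : ℕ => 2 * (1 / 2 : ℝ) ^ n) atTop (𝓝 (2 * 0)) :=
      (tendsto_pow_atTop_nhds_zero_of_lt_one (by norm_num) (by norm_num)).const_mul 2
    rw [mul_zero] at h2
    have h3 : M d ≤ 0 := ge_of_tendsto' h2 fun n =>
      (hmono d hdL _ (hcL n) (iInf_le c n)).trans (hcM n)
    linarith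
  have h5 := hm.cont c hanti hd
  have h6 : ε ≤ 0 := ge_of_tendsto' h5 fun n => (hbm n).trans (hm.mono _ _ (by
    have := le_iSup (fun k => b (n + k)) 0
    exact this))
  linarith

end

/-- **Theorem.** Let `B` be a ccc complete Boolean algebra such that every countably generated
complete subalgebra of `B` admits a measure. If `B` admits a continuous outer measure, then `B`
admits a measure. -/
theorem result (B : Type u) [CompleteBooleanAlgebra B] (hccc : CCC B)
    (hsub : ∀ L : BooleanSubalgebra B, IsCountablyGenerated L → ∃ μ : L → ℝ, IsMeasure μ)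
    (hout : ∃ m : B → ℝ, IsContinuousOuterMeasure m) : ∃ μ : B → ℝ, IsMeasure μ := by
  classical
  obtain ⟨m, hm⟩ := hout
  -- Step 1: intersection numbers are positive
  have step1 : ∀ ε : ℝ, 0 < ε → ∃ δ > 0, ∀ (ι : Type) (t : Finset ι) (w : ι → ℝ) (z : ι → B),
      (∀ i ∈ t, 0 ≤ w i) → ∑ i ∈ t, w i = 1 → (∀ i ∈ t, z i ∈ {b | ε ≤ m b}) →
      ∃ J : Pt B, δ ≤ ∑ i ∈ t, w i * chi (z i) J := by
    intro ε hε
    by_contra hcon
    push Not at hcon
    choose ι t w z hw hw1 hz hJ using fun n : ℕ => hcon (1 / ((n : ℝ) + 1)) (by positivity)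
    let G : Set B := ⋃ n, (z n) '' (t n : Set (ι n))
    have hG : G.Countable := countable_iUnion fun n => ((t n).countable_toSet).image _
    obtain ⟨μ, hμ⟩ := hsub (cgen G) (isCountablyGenerated_cgen hG)
    have hL := isCompleteSubalgebra_cgen G
    obtain ⟨M, hM0, hMpos, hMs⟩ := exists_ext hL hμ
    have hMbot : M ⊥ = 0 := by
      have h1 := hMs (fun _ => ⊥) (fun _ => BooleanSubalgebra.bot_mem) (fun i j _ => disjoint_bot_left)
      rw [iSup_bot] at h1
      exact (tendsto_nhds_unique h1.summable.tendsto_atTop_zero tendsto_const_nhds).symm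
    have hadd : ∀ b ∈ cgen G, ∀ c ∈ cgen G, Disjoint b c → M (b ⊔ c) = M b + M c := by
      intro b hb c hc hbc
      let a : ℕ → B := fun n => if n = 0 then b else if n = 1 then c else ⊥
      have ha0 : a 0 = b := rfl
      have ha1 : a 1 = c := rfl
      have ha2 : ∀ n, n ∉ ({0, 1} : Finset ℕ) → a n = ⊥ := by
        intro n hn
        simp only [Finset.mem_insert, Finset.mem_singleton, not_or] at hn
        show (if n = 0 then b else if n = 1 then c else ⊥) = ⊥
        rw [if_neg hn.1, if_neg hn.2]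
      have haL : ∀ n, a n ∈ cgen G := by
        intro n
        by_cases h0 : n = 0
        · rw [h0, ha0]; exact hb
        · by_cases h1 : n = 1
          · rw [h1, ha1]; exact hc
          · rw [ha2 n (by simp [h0, h1])]; exact BooleanSubalgebra.bot_mem
      have had : Pairwise fun i j => Disjoint (a i) (a j) := by
        intro i j hij
        by_cases hi : i ∈ ({0, 1} : Finset ℕ)
        · by_cases hj : j ∈ ({0, 1} : Finset ℕ)
          · simp only [Finset.mem_insert, Finset.mem_singleton] at hi hj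
            rcases hi with rfl | rfl <;> rcases hj with rfl | rfl
            · exact absurd rfl hij
            · exact hbc
            · exact hbc.symm
            · exact absurd rfl hij
          · rw [ha2 j hj]; exact disjoint_bot_right
        · rw [ha2 i hi]; exact disjoint_bot_left
      have has : (⨆ n, a n) = b ⊔ c := by
        apply le_antisymm
        · refine iSup_le fun n => ?_
          by_cases h0 : n = 0
          · rw [h0, ha0]; exact le_sup_left
          · by_cases h1 : n = 1
            · rw [h1, ha1]; exact le_sup_right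
            · rw [ha2 n (by simp [h0, h1])]; exact bot_le
        · exact sup_le (le_iSup a 0) (le_iSup a 1)
      have h1 := hMs a haL had
      rw [has] at h1
      have h2 : HasSum (fun n => M (a n)) (∑ n ∈ ({0, 1} : Finset ℕ), M (a n)) :=
        hasSum_sum_of_ne_finset_zero fun n hn => by rw [ha2 n hn, hMbot]
      have h3 := h1.unique h2
      rw [h3, Finset.sum_insert (by simp), Finset.sum_singleton, ha0, ha1]
    obtain ⟨δ, hδ, hδM⟩ := abs_cont hm hL hM0 hMpos hMs hadd hε
    have hMtop : ∀ b ∈ cgen G, M b ≤ M ⊤ := by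
      intro b hb
      have h1 : M ⊤ = M b + M bᶜ := by
        rw [← hadd b hb bᶜ (BooleanSubalgebra.compl_mem hb) disjoint_compl_right,
          sup_compl_eq_top]
      linarith [hM0 bᶜ]
    have key : ∀ n : ℕ, δ ≤ 1 / ((n : ℝ) + 1) * M ⊤ := by
      intro n
      have hzL : ∀ i ∈ t n, z n i ∈ cgen G := fun i hi =>
        subset_cgen G (mem_iUnion.2 ⟨n, i, hi, rfl⟩)
      have h1 := comb_le (L := cgen G) M hM0 hMbot hadd (w n) (z n) (t n) hzL ⊤
        BooleanSubalgebra.top_mem (1 / ((n : ℝ) + 1)) (fun J _ => (hJ n J).le)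
      have h2 : δ ≤ ∑ i ∈ t n, w n i * M (z n i ⊓ ⊤) := by
        calc δ = ∑ i ∈ t n, w n i * δ := by rw [← Finset.sum_mul, hw1 n, one_mul]
          _ ≤ ∑ i ∈ t n, w n i * M (z n i ⊓ ⊤) := by
              refine Finset.sum_le_sum fun i hi => ?_
              rw [inf_top_eq]
              exact mul_le_mul_of_nonneg_left (hδM _ (hzL i hi) (hz n i hi)) (hw n i hi)
      exact h2.trans h1
    have h1 : Tendsto (fun n : ℕ => 1 / ((n : ℝ) + 1) * M ⊤) atTop (𝓝 (0 * M ⊤)) :=
      tendsto_one_div_add_atTop_nhds_zero_nat.mul_const _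
    rw [zero_mul] at h1
    have := ge_of_tendsto' h1 key
    linarith
  -- Step 2: finitely additive functions
  have step2 : ∀ n : ℕ, ∃ ν : B → ℝ, ∃ δ > 0, (∀ b, 0 ≤ ν b) ∧ (∀ b, ν b ≤ 1) ∧
      (∀ b c, Disjoint b c → ν (b ⊔ c) = ν b + ν c) ∧ ∀ b, 1 / ((n : ℝ) + 1) ≤ m b → δ ≤ ν b := by
    intro n
    obtain ⟨δ, hδ, h⟩ := step1 (1 / ((n : ℝ) + 1)) (by positivity)
    obtain ⟨ν, h1, h2, h3, h4⟩ := kelley _ δ hδ h
    exact ⟨ν, δ, hδ, h1, h2, h3, fun b hb => h4 b hb⟩
  choose ν δ hδ hν0 hν1 hνadd hνδ using step2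
  -- the sum
  let N : B → ENNReal := fun b => ∑' n, ENNReal.ofReal ((1 / 2) ^ n * ν n b)
  have hN0 : N ⊥ = 0 := by
    have h : ∀ n, ν n ⊥ = 0 := by
      intro n
      have h1 := hνadd n ⊥ ⊥ disjoint_bot_left
      rw [sup_idem] at h1
      linarith
    show ∑' n, ENNReal.ofReal ((1 / 2) ^ n * ν n ⊥) = 0
    simp [h]
  have hNadd : ∀ b c, Disjoint b c → N (b ⊔ c) = N b + N c := by
    intro b c hbc
    show ∑' n, _ = ∑' n, _ + ∑' n, _
    rw [← ENNReal.tsum_add]
    refine tsum_congr fun n => ?_
    rw [hνadd n b c hbc, mul_add, ENNReal.ofReal_add]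
    · exact mul_nonneg (by positivity) (hν0 n b)
    · exact mul_nonneg (by positivity) (hν0 n c)
  have hNfin : ∀ b, N b ≠ ⊤ := by
    intro b
    have h1 : N b ≤ ∑' n : ℕ, ENNReal.ofReal ((1 / 2) ^ n) := by
      refine ENNReal.tsum_le_tsum fun n => ENNReal.ofReal_le_ofReal ?_
      exact mul_le_of_le_one_right (by positivity) (hν1 n b)
    have h2 : ∑' n : ℕ, ENNReal.ofReal ((1 / 2 : ℝ) ^ n) = ENNReal.ofReal 2 := by
      rw [← ENNReal.ofReal_tsum_of_nonneg (fun n => by positivity) summable_geometric_two,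
        tsum_geometric_two]
    rw [h2] at h1
    exact ne_top_of_le_ne_top ENNReal.ofReal_ne_top h1
  have hNm : ∀ ε : ℝ, 0 < ε → ∃ η : ENNReal, 0 < η ∧ ∀ b, ε ≤ m b → η ≤ N b := by
    intro ε hε
    obtain ⟨n, hn⟩ := exists_nat_one_div_lt hε
    refine ⟨ENNReal.ofReal ((1 / 2) ^ n * δ n), ?_, fun b hb => ?_⟩
    · rw [ENNReal.ofReal_pos]
      exact mul_pos (by positivity) (hδ n)
    · refine le_trans ?_ (ENNReal.le_tsum n)
      apply ENNReal.ofReal_le_ofReal
      exact mul_le_mul_of_nonneg_left (hνδ n b (hn.le.trans hb)) (by positivity)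
  -- the countably additive part
  have hPle : ∀ b, part N b ≤ N b := by
    intro b
    have h1 : IsPart b (fun n : ℕ => if n = 0 then b else ⊥) := by
      constructor
      · intro i j hij
        by_cases hi : i = 0
        · by_cases hj : j = 0
          · exact absurd (hi.trans hj.symm) hij
          · simp only [if_neg hj]; exact disjoint_bot_right
        · simp only [if_neg hi]; exact disjoint_bot_left
      · apply le_antisymm
        · refine iSup_le fun n => ?_
          by_cases hn : n = 0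
          · simp [hn]
          · simp [hn]
        · exact le_iSup (fun n : ℕ => if n = 0 then b else ⊥) 0
    refine (part_le N h1).trans ?_
    rw [tsum_eq_single 0]
    · simp
    · intro n hn
      simp only [if_neg hn]
      exact hN0
  have hPfin : ∀ b, part N b ≠ ⊤ := fun b => ne_top_of_le_ne_top (hNfin b) (hPle b)
  have hPpos : ∀ b, b ≠ ⊥ → part N b ≠ 0 := by
    intro b hb
    have hmb := hm.pos b hb
    obtain ⟨η, hη, hηN⟩ := hNm (m b / 2) (by linarith)
    have h1 : η ≤ part N b := by
      apply le_part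
      intro a ha
      let d : ℕ → B := fun n => b \ (Finset.range n).sup a
      have hd : Antitone d := by
        intro i j hij
        apply sdiff_le_sdiff_left
        exact Finset.sup_mono (Finset.range_mono hij)
      have hd0 : (⨅ n, d n) = ⊥ := by
        have h2 : (⨅ n, d n) ≤ b := (iInf_le d 0).trans sdiff_le
        have h3 : ∀ k, Disjoint (⨅ n, d n) (a k) := by
          intro k
          refine Disjoint.mono_left (iInf_le d (k + 1)) ?_
          have h4 : a k ≤ (Finset.range (k + 1)).sup a :=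
            Finset.le_sup (f := a) (Finset.mem_range.2 (Nat.lt_succ_self k))
          exact disjoint_sdiff_self_left.mono_right h4
        have h5 : Disjoint (⨅ n, d n) b := by
          rw [← ha.2, disjoint_iSup_iff]
          exact h3
        exact le_bot_iff.1 (h5 le_rfl h2)
      have h6 := hm.cont d hd hd0
      obtain ⟨n, hn⟩ := (h6.eventually (gt_mem_nhds (show (0 : ℝ) < m b / 2 by linarith))).exists
      have hsub' : (Finset.range n).sup a ≤ b := by
        refine Finset.sup_le fun i _ => ?_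
        rw [← ha.2]
        exact le_iSup a i
      have h7 : m b ≤ m (d n) + m ((Finset.range n).sup a) := by
        have h8 := hm.subadd (d n) ((Finset.range n).sup a)
        rwa [sdiff_sup_cancel hsub'] at h8
      have h9 : η ≤ N ((Finset.range n).sup a) := hηN _ (by linarith)
      rw [← sum_le hN0 hNadd ha.1] at h9
      exact h9.trans (ENNReal.sum_le_tsum _)
    exact (lt_of_lt_of_le hη h1).ne'
  refine ⟨fun b => (part N b).toReal, fun b => ENNReal.toReal_nonneg, fun b hb =>
    ENNReal.toReal_pos (hPpos b hb) (hPfin b), fun a x had hx => ?_⟩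
  have hx' : (⨆ n, a n) = x := by
    exact (isLUB_iSup (f := a)).unique hx
  have h1 := part_sigma hN0 hNadd had hx' hPfin
  have h2 : ∑' n, part N (a n) ≠ ⊤ := by
    rw [← h1]
    exact hPfin x
  have h3 := ENNReal.hasSum_toReal h2
  show HasSum (fun n => (part N (a n)).toReal) (part N x).toReal
  rw [h1, ENNReal.tsum_toReal_eq (fun n => hPfin _)]
  exact h3

end Pool.Agent.Results.MP_2d6919_lc.MeasureFromPieces
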